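import Pool.Agent.Helper60_SEP.Stmts
import Pool.Agent.Helper60_RS.Basic

/-!
# MP_ff6f12_co, squad SEP, module CRA: the core is Ramsey
-/

set_option autoImplicit false

open SimpleGraph

namespace Pool.Agent.SEP60.H76

open Pool.Agent.RS80 Pool.Agent.RS81

variable {V : Type} {M a : ℕ}

/-- the vertices of the blue structures -/
abbrev dv (i j : V) (c : Fin M) (v : V) : CU V M a := .inr (.inl (i, j, c, v))

/-- the hubs -/
abbrev hb (i : V) (r : Fin a) : CU V M a := .inr (.inr (i, r))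

theorem gdd {B : SimpleGraph V} {i j v v' : V} (c : Fin M) (hij : B.Adj i j) (h1 : v ≠ i)
    (h2 : v ≠ j) (h3 : v' ≠ i) (h4 : v' ≠ j) (h : B.Adj v v') :
    (coreΓ B M a).Adj (dv i j c v) (dv i j c v') := by
  refine Or.inr ?_
  exact ⟨rfl, rfl, rfl, hij, h1, h2, h3, h4, h⟩

theorem gdh {B : SimpleGraph V} {l i j v : V} (c : Fin M) (r : Fin a) (h : KD B l i j v) :
    (coreΓ B M a).Adj (dv i j c v) (hb l r) := Or.inl h

theorem coreχ_symm (x y : CU V M a) : coreχ x y = coreχ y x := by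
  rcases x with x | x | x <;> rcases y with y | y | y <;> rfl

/-- the colour of the forced edges at `x` is the sign -/
def PP {W : Type} (B : SimpleGraph V) (R : SimpleGraph (CU V M a ⊕ W)) (x : CU V M a) : Prop :=
  ∀ y, (coreΓ B M a).Adj x y → (R.Adj (.inl x) (.inl y) ↔ coreχ x y = true)

theorem PP.step {W : Type} {B : SimpleGraph V} {R : SimpleGraph (CU V M a ⊕ W)}
    (hF : ∀ x y z, (coreΓ B M a).Adj x y → (coreΓ B M a).Adj x z →
      ((R.Adj (.inl x) (.inl y) ↔ R.Adj (.inl x) (.inl z)) ↔ coreχ x y = coreχ x z))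
    {x y : CU V M a} (hx : PP B R x) (hxy : (coreΓ B M a).Adj x y) : PP B R y := by
  intro z hz
  have h1 := hF y x z hxy.symm hz
  have h2 := hx y hxy
  rw [coreχ_symm x y, R.adj_comm] at h2
  rw [h2] at h1
  rcases h3 : coreχ y x with _ | _ <;> rcases h4 : coreχ y z with _ | _ <;>
    rw [h3, h4] at h1 <;> simp at h1 <;> simp [h1]

theorem ppAll {W : Type} {B : SimpleGraph V} {R : SimpleGraph (CU V M a ⊕ W)}
    (hB : TwoConn B) (hno : ∀ i j, B.Adj i j → (B.induce {i, j}ᶜ).Preconnected)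
    (hF : ∀ x y z, (coreΓ B M a).Adj x y → (coreΓ B M a).Adj x z →
      ((R.Adj (.inl x) (.inl y) ↔ R.Adj (.inl x) (.inl z)) ↔ coreχ x y = coreχ x z))
    (c0 : Fin M) (r0 : Fin a) (i0 : V) (h0 : PP B R (hb i0 r0)) :
    ∀ i j c v, B.Adj i j → v ≠ i → v ≠ j → PP B R (dv i j c v) := by
  have s1 : ∀ i j c, B.Adj i j → ∀ v, v ≠ i → v ≠ j → PP B R (dv i j c v) →
      ∀ v', v' ≠ i → v' ≠ j → PP B R (dv i j c v') := by
    intro i j c hij v h1 h2 hP v' h3 h4
    refine prop_of_preconnected (hno i j hij) (fun x => PP B R (dv i j c x.1))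
      (fun x y hxy hx => ?_) (u := ⟨v, by simp [h1, h2]⟩) hP ⟨v', by simp [h3, h4]⟩
    have hx' := x.2
    have hy' := y.2
    simp only [Set.mem_compl_iff, Set.mem_insert_iff, Set.mem_singleton_iff, not_or] at hx' hy'
    exact hx.step hF (gdd c hij hx'.1 hx'.2 hy'.1 hy'.2 hxy)
  have s2 : ∀ i j c, B.Adj i j → PP B R (hb i r0) →
      (∀ v, v ≠ i → v ≠ j → PP B R (dv i j c v)) := by
    intro i j c hij hP v h1 h2
    obtain ⟨w, hwj, hw⟩ := hB.exists_adj_ne i j
    have hK : KD B i i j w := ⟨hij, Or.inl rfl, hw.ne', hwj, hw⟩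
    exact s1 i j c hij w hw.ne' hwj (hP.step hF (gdh c r0 hK).symm) v h1 h2
  have s3 : ∀ i j, B.Adj i j → PP B R (hb i r0) → PP B R (hb j r0) := by
    intro i j hij hP
    obtain ⟨w, hwi, hw⟩ := hB.exists_adj_ne j i
    have hK : KD B j i j w := ⟨hij, Or.inr rfl, hwi, hw.ne', hw⟩
    exact (s2 i j c0 hij hP w hwi hw.ne').step hF (gdh c0 r0 hK)
  have s4 : ∀ i, PP B R (hb i r0) := fun i =>
    prop_of_preconnected hB.2.1.preconnected (fun i => PP B R (hb i r0)) s3 h0 i
  intro i j c v hij h1 h2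
  exact s2 i j c hij (s4 i) v h1 h2

theorem few {W : Type} {B : SimpleGraph V} {R : SimpleGraph (CU V M a ⊕ W)} {N : ℕ}
    (hN : B ⊑ completeBipartiteGraph (Fin (a + 1)) (Fin N)) (hR : B.Free R)
    (l i j : V)
    (hhub : ∀ c v r, KD B l i j v → R.Adj (.inl (dv i j c v)) (.inl (hb l r))) :
    ∃ J : Finset (Fin M), J.card < N ∧ ∀ c ∉ J, ∀ v, KD B l i j v →
      ¬ R.Adj (.inl (.inl l)) (.inl (dv i j c v)) := by
  classical
  obtain ⟨J, hJ⟩ : ∃ J : Finset (Fin M), J = Finset.univ.filter (fun c =>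
    ∃ v, KD B l i j v ∧ R.Adj (.inl (.inl l)) (.inl (dv i j c v))) := ⟨_, rfl⟩
  have hmem : ∀ c, c ∈ J ↔ ∃ v, KD B l i j v ∧ R.Adj (.inl (.inl l)) (.inl (dv i j c v)) := by
    intro c
    rw [hJ]
    simp
  refine ⟨J, ?_, fun c hc v hK hadj => hc ((hmem c).2 ⟨v, hK, hadj⟩)⟩
  by_contra hcon
  rw [not_lt] at hcon
  have hex : ∀ c, ∃ v, c ∈ J → KD B l i j v ∧ R.Adj (.inl (.inl l)) (.inl (dv i j c v)) := by
    intro c
    by_cases hc : c ∈ J
    · obtain ⟨v, hv⟩ := (hmem c).1 hc
      exact ⟨v, fun _ => hv⟩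
    · exact ⟨l, fun h => absurd h hc⟩
  choose w hw using hex
  obtain ⟨u, hu⟩ : ∃ u : Fin (a + 1) → CU V M a ⊕ W,
    u = Fin.cases (.inl (.inl l)) (fun r => .inl (hb l r)) := ⟨_, rfl⟩
  have hu0 : u 0 = .inl (.inl l) := by rw [hu]; rfl
  have hus : ∀ r : Fin a, u r.succ = .inl (hb l r) := fun r => by rw [hu]; rfl
  have huinj : Function.Injective u := by
    intro x y
    refine Fin.cases ?_ (fun r => ?_) x
    · refine Fin.cases ?_ (fun r' => ?_) y
      · intro _
        rfl
      · intro h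
        rw [hu0, hus] at h
        simp at h
    · refine Fin.cases ?_ (fun r' => ?_) y
      · intro h
        rw [hu0, hus] at h
        simp at h
      · intro h
        rw [hus, hus] at h
        simp only [Sum.inl.injEq, Sum.inr.injEq, Prod.mk.injEq, true_and] at h
        rw [h]
  have hvinj : Function.Injective (fun c => (.inl (dv i j c (w c)) : CU V M a ⊕ W)) := by
    intro x y h
    simp only [Sum.inl.injEq, Sum.inr.injEq, Prod.mk.injEq] at h
    exact h.2.2.1
  apply hR
  refine hN.trans (H60.embed huinj hvinj (A := Finset.univ) (J := J) ?_ hcon ?_)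
  · rw [Finset.card_univ, Fintype.card_fin]
  · intro x _ c hc
    refine Fin.cases ?_ (fun r => ?_) x
    · rw [hu0]
      exact (hw c hc).2
    · rw [hus]
      exact (hhub c (w c) r (hw c hc).1).symm

/-- the main step, for a partition in which the forced edges have the colours of the signs -/
theorem core_false {W : Type} {B : SimpleGraph V} {N : ℕ} {F R : SimpleGraph (CU V (2 * N + 1) a ⊕ W)}
    (hN : B ⊑ completeBipartiteGraph (Fin (a + 1)) (Fin N))
    (hcore : ∀ x y, F.Adj (.inl x) (.inl y) ↔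
        (coreR B (2 * N + 1) a ⊔ coreS B (2 * N + 1) a).Adj x y)
    (hR : B.Free R) (hS : B.Free (F \ R))
    (hP : ∀ i j c v, B.Adj i j → v ≠ i → v ≠ j → PP B R (dv i j c v)) : False := by
  classical
  have hhub : ∀ l i j c v (r : Fin a), KD B l i j v →
      R.Adj (.inl (dv i j c v)) (.inl (hb l r)) := by
    intro l i j c v r hK
    exact (hP i j c v hK.1 hK.2.2.1 hK.2.2.2.1 _ (gdh c r hK)).2 rfl
  have hdd : ∀ i j (c : Fin (2 * N + 1)) v v', B.Adj i j → v ≠ i → v ≠ j → v' ≠ i → v' ≠ j →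
      B.Adj v v' → (F \ R).Adj (.inl (dv i j c v)) (.inl (dv i j c v')) := by
    intro i j c v v' hij h1 h2 h3 h4 h
    rw [sdiff_adj]
    refine ⟨(hcore _ _).2 (Or.inr ⟨rfl, rfl, rfl, hij, h1, h2, h3, h4, h⟩), fun hr => ?_⟩
    have := (hP i j c v hij h1 h2 _ (gdd c hij h1 h2 h3 h4 h)).1 hr
    simp [coreχ] at this
  -- all the edges of the cell are red
  have hred : ∀ i j, B.Adj i j → R.Adj (.inl (.inl i)) (.inl (.inl j)) := by
    intro i j hij
    by_contra hnr
    obtain ⟨J1, hJ1, h1⟩ := few hN hR i i j (fun c v r hK => hhub i i j c v r hK)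
    obtain ⟨J2, hJ2, h2⟩ := few hN hR j i j (fun c v r hK => hhub j i j c v r hK)
    obtain ⟨c, hc1, hc2⟩ : ∃ c : Fin (2 * N + 1), c ∉ J1 ∧ c ∉ J2 := by
      by_contra hcon
      push Not at hcon
      have hsub : (Finset.univ : Finset (Fin (2 * N + 1))) ⊆ J1 ∪ J2 := by
        intro c _
        rw [Finset.mem_union]
        by_cases hc : c ∈ J1
        · exact Or.inl hc
        · exact Or.inr (hcon c hc)
      have h3 := (Finset.card_le_card hsub).trans (Finset.card_union_le _ _)
      rw [Finset.card_univ, Fintype.card_fin] at h3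
      omega
    have hki : ∀ v, v ≠ i → v ≠ j → B.Adj i v →
        (F \ R).Adj (.inl (.inl i)) (.inl (dv i j c v)) := by
      intro v hv1 hv2 hv
      have hK : KD B i i j v := ⟨hij, Or.inl rfl, hv1, hv2, hv⟩
      rw [sdiff_adj]
      exact ⟨(hcore _ _).2 (Or.inr hK), h1 c hc1 v hK⟩
    have hkj : ∀ v, v ≠ i → v ≠ j → B.Adj j v →
        (F \ R).Adj (.inl (.inl j)) (.inl (dv i j c v)) := by
      intro v hv1 hv2 hv
      have hK : KD B j i j v := ⟨hij, Or.inr rfl, hv1, hv2, hv⟩
      rw [sdiff_adj]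
      exact ⟨(hcore _ _).2 (Or.inr hK), h2 c hc2 v hK⟩
    have hkk : (F \ R).Adj (.inl (.inl i)) (.inl (.inl j)) := by
      rw [sdiff_adj]
      exact ⟨(hcore _ _).2 (Or.inl hij), hnr⟩
    obtain ⟨f, hf⟩ : ∃ f : V → CU V (2 * N + 1) a ⊕ W, ∀ v, f v =
        if v = i then .inl (.inl i) else if v = j then .inl (.inl j) else .inl (dv i j c v) :=
      ⟨_, fun _ => rfl⟩
    have hfi : f i = .inl (.inl i) := by rw [hf, if_pos rfl]
    have hfj : f j = .inl (.inl j) := by rw [hf, if_neg hij.ne', if_pos rfl]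
    have hfv : ∀ v, v ≠ i → v ≠ j → f v = .inl (dv i j c v) := fun v hv1 hv2 => by
      rw [hf, if_neg hv1, if_neg hv2]
    apply hS
    refine ⟨⟨⟨f, fun {x y} hxy => ?_⟩, fun x y hxy => ?_⟩⟩
    · by_cases hx1 : x = i
      · rw [hx1] at hxy
        rw [hx1, hfi]
        by_cases hy2 : y = j
        · rw [hy2, hfj]
          exact hkk
        · rw [hfv y hxy.ne' hy2]
          exact hki y hxy.ne' hy2 hxy
      · by_cases hx2 : x = j
        · rw [hx2] at hxy
          rw [hx2, hfj]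
          by_cases hy1 : y = i
          · rw [hy1, hfi]
            exact hkk.symm
          · rw [hfv y hy1 hxy.ne']
            exact hkj y hy1 hxy.ne' hxy
        · rw [hfv x hx1 hx2]
          by_cases hy1 : y = i
          · rw [hy1] at hxy
            rw [hy1, hfi]
            exact (hki x hx1 hx2 hxy.symm).symm
          · by_cases hy2 : y = j
            · rw [hy2] at hxy
              rw [hy2, hfj]
              exact (hkj x hx1 hx2 hxy.symm).symm
            · rw [hfv y hy1 hy2]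
              exact hdd i j c x y hij hx1 hx2 hy1 hy2 hxy
    · have hxy' : f x = f y := hxy
      rw [hf, hf] at hxy'
      split_ifs at hxy' with g1 g2 g3 g4 g5 g6 g7 g8 <;> simp_all
  apply hR
  refine ⟨⟨⟨fun v => .inl (.inl v), fun {x y} hxy => hred x y hxy⟩, fun x y hxy => ?_⟩⟩
  have : (.inl (.inl x) : CU V (2 * N + 1) a ⊕ W) = .inl (.inl y) := hxy
  simpa using this

theorem cra : CraStmt := by
  classical
  intro V _ B hB hc hno a N ha hN W F hcore hfrc ⟨R, S, hg⟩
  obtain ⟨C⟩ := hc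
  have hno' : ∀ i j, B.Adj i j → (B.induce {i, j}ᶜ).Preconnected := by
    intro i j hij
    have hκ : ∀ x y, B.Adj x y → decide (C x = 0) ≠ decide (C y = 0) := by
      intro x y hxy h
      have h1 := C.valid hxy
      rw [decide_eq_decide] at h
      have hx : C x = 0 ∨ C x = 1 := by
        rcases Fin.exists_fin_two.1 ⟨C x, rfl⟩ with h | h
        · exact Or.inl h
        · exact Or.inr h
      have hy : C y = 0 ∨ C y = 1 := by
        rcases Fin.exists_fin_two.1 ⟨C y, rfl⟩ with h | h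
        · exact Or.inl h
        · exact Or.inr h
      rcases hx with hx | hx <;> rcases hy with hy | hy <;> simp_all
    exact hno (fun x => decide (C x = 0)) hκ i j (hκ i j hij)
  have hRF : R ≤ F := by
    rw [← hg.1]
    exact le_sup_left
  have hSd : B.Free (F \ R) := by
    intro h
    refine hg.2.2 (h.trans (IsContained.of_le ?_))
    intro x y hxy
    rw [sdiff_adj, ← hg.1, sup_adj] at hxy
    exact hxy.1.resolve_left hxy.2
  have hg1 : Good B F R (F \ R) := ⟨by rw [sup_sdiff_self_right, sup_eq_right.2 hRF], hg.2.1, hSd⟩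
  have hg2 : Good B F (F \ R) R := hg1.swap
  have i0 : V := hB.2.1.nonempty.some
  obtain ⟨r0⟩ : Nonempty (Fin a) := ⟨⟨0, ha⟩⟩
  have c0 : Fin (2 * N + 1) := 0
  by_cases h0 : PP B R (hb i0 r0)
  · exact core_false hN hcore hg.2.1 hSd
      (ppAll hB hno' (hfrc R _ hg1) c0 r0 i0 h0)
  · have h1 : PP B (F \ R) (hb i0 r0 : CU V (2 * N + 1) a) := by
      intro z hz
      unfold PP at h0
      push Not at h0
      obtain ⟨y, hy, hy2⟩ := h0
      have h3 := hfrc R _ hg1 (hb i0 r0) y z hy hz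
      have hFz : F.Adj (.inl (hb i0 r0)) (.inl z) := by
        rw [hcore]
        rcases z with z | z
        · exact absurd hz (by intro h; exact h)
        · exact hz
      rw [sdiff_adj]
      have h4 : coreχ (hb i0 r0 : CU V (2 * N + 1) a) y = true := rfl
      have h5 : coreχ (hb i0 r0 : CU V (2 * N + 1) a) z = true := rfl
      rw [h4, h5] at h3
      rw [h4] at hy2
      rw [h5]
      simp only [iff_true] at h3 hy2 ⊢
      have h6 : ¬ R.Adj (.inl (hb i0 r0)) (.inl y) := by
        rcases hy2 with h | h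
        · exact absurd rfl h.2
        · exact h.1
      exact ⟨hFz, fun h => h6 (h3.2 h)⟩
    have hle : F \ (F \ R) = R := by
      rw [sdiff_sdiff_right_self]
      exact inf_eq_right.2 hRF
    refine core_false hN hcore hSd ?_
      (ppAll hB hno' (hfrc _ R hg2) c0 r0 i0 h1)
    rw [hle]
    exact hg.2.1

end Pool.Agent.SEP60.H76
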